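import Pool.Agent.helper88.GR.Spec

/-!
# Project gr: (MP_af9036_an, MP_70a088_an), module CORE
-/

set_option autoImplicit false

open Complex Metric Set Filter Topology MeasureTheory
open MPS (om)
open PPS (pre TT fd)
open XPS (Df er dens tau)

noncomputable section

namespace GR

theorem CORE_om (n : ℕ) : ‖om n‖ = 1 := by
  unfold MPS.om
  rw [show (2 * (Real.pi : ℂ) * Complex.I / (n : ℂ)) = ((2 * Real.pi / n : ℝ) : ℂ) * Complex.I by
    push_cast; ring]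
  exact Complex.norm_exp_ofReal_mul_I _

/-- the area of an annulus -/
theorem CORE_area (r : ℝ) (hr : 0 < r) :
    ENNReal.ofReal (2 * r ^ 2) ≤ volume (ball (0 : ℂ) r \ closedBall (0 : ℂ) (r / 2)) := by
  have hsub : closedBall (0 : ℂ) (r / 2) ⊆ ball (0 : ℂ) r := closedBall_subset_ball (by linarith)
  rw [measure_sdiff hsub measurableSet_closedBall.nullMeasurableSet measure_closedBall_lt_top.ne]
  rw [Complex.volume_ball, Complex.volume_closedBall]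
  have h1 : (NNReal.pi : ENNReal) = ENNReal.ofReal Real.pi := by
    rw [← NNReal.coe_real_pi, ENNReal.ofReal_coe_nnreal]
  rw [h1, ← ENNReal.ofReal_pow hr.le, ← ENNReal.ofReal_pow (by linarith : (0 : ℝ) ≤ r / 2),
    ← ENNReal.ofReal_mul (by positivity), ← ENNReal.ofReal_mul (by positivity),
    ← ENNReal.ofReal_sub _ (by positivity)]
  apply ENNReal.ofReal_le_ofReal
  have := Real.pi_gt_three
  nlinarith [sq_nonneg r, pow_pos hr 2]

/-- the pointwise lower bound on the annulus -/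
theorem CORE_point (hPHA : PHA_stmt) (n : ℕ) (hn : 4 ≤ n) (R ρ : ℝ) (hR : 0 < R)
    (hρ1 : ρ ≤ 1) (κ θ : ℂ) (d : ℤ) (hd : d = -1 ∨ d = 0 ∨ d = 1) (T h : ℂ → ℂ)
    (hT : ∀ u ∈ ball (0 : ℂ) 1, T ((R : ℂ) * u) = θ * h u)
    (hh : ∀ u : ℂ, ρ / 2 < ‖u‖ → ‖u‖ < ρ → ‖h u - κ * u ^ d‖ ≤ 1 / 4 * ‖κ * u ^ d‖ ∧
      1 ≤ ‖κ * u ^ d‖) (hρ0 : 0 < ρ)
    (w : ℂ) (hw1 : ρ / 2 * R < ‖w‖) (hw2 : ‖w‖ < ρ * R) :
    ‖θ‖ * ((n : ℝ) / 2) ≤ ∑ k ∈ Finset.range n, ‖T (om n ^ k * w)‖ -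
      ‖∑ k ∈ Finset.range n, om n ^ (2 * k) * T (om n ^ k * w)‖ := by
  have hR' : (R : ℂ) ≠ 0 := by exact_mod_cast hR.ne'
  set u : ℂ := w / R with hu
  have hwu : w = (R : ℂ) * u := by rw [hu]; field_simp
  have hnu : ‖u‖ = ‖w‖ / R := by
    rw [hu, norm_div, Complex.norm_real, Real.norm_of_nonneg hR.le]
  have hu1 : ρ / 2 < ‖u‖ := by rw [hnu, lt_div_iff₀ hR]; exact hw1
  have hu2 : ‖u‖ < ρ := by rw [hnu, div_lt_iff₀ hR]; exact hw2
  have hu0 : u ≠ 0 := by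
    intro h0
    rw [h0, norm_zero] at hu1
    linarith
  have hnorm : ∀ k : ℕ, ‖om n ^ k * u‖ = ‖u‖ := by
    intro k
    rw [norm_mul, norm_pow, CORE_om, one_pow, one_mul]
  have hzn : ∀ k : ℕ, ‖κ * (om n ^ k * u) ^ d‖ = ‖κ * u ^ d‖ := by
    intro k
    rw [norm_mul, norm_mul, norm_zpow, norm_zpow, hnorm]
  have hTk : ∀ k : ℕ, T (om n ^ k * w) = θ * h (om n ^ k * u) := by
    intro k
    rw [hwu, show om n ^ k * ((R : ℂ) * u) = (R : ℂ) * (om n ^ k * u) by ring]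
    apply hT
    rw [mem_ball_zero_iff, hnorm]
    linarith
  have hpha := hPHA n hn κ u (fun k => h (om n ^ k * u)) d hd hu0 (by
    intro k _
    have := (hh (om n ^ k * u) (by rw [hnorm]; exact hu1) (by rw [hnorm]; exact hu2)).1
    rw [hzn] at this
    exact this)
  have h1 := (hh u hu1 hu2).2
  have e1 : ∑ k ∈ Finset.range n, ‖T (om n ^ k * w)‖ =
      ‖θ‖ * ∑ k ∈ Finset.range n, ‖h (om n ^ k * u)‖ := by
    rw [Finset.mul_sum]
    exact Finset.sum_congr rfl (fun k _ => by rw [hTk, norm_mul])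
  have e2 : ‖∑ k ∈ Finset.range n, om n ^ (2 * k) * T (om n ^ k * w)‖ =
      ‖θ‖ * ‖∑ k ∈ Finset.range n, om n ^ (2 * k) * h (om n ^ k * u)‖ := by
    rw [← norm_mul, Finset.mul_sum]
    congr 1
    exact Finset.sum_congr rfl (fun k _ => by rw [hTk]; ring)
  rw [e1, e2, ← mul_sub]
  apply mul_le_mul_of_nonneg_left _ (norm_nonneg _)
  refine le_trans ?_ hpha
  have : 0 ≤ (n : ℝ) / 2 := by positivity
  nlinarith

theorem CORE (hKO1 : V3.KO1_stmt) (hKO3 : V3.KO3_stmt) (hNAT : NAT_stmt) (hMSB : MSB_stmt)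
    (hERI : ERI_stmt) (hENG : ENG_stmt) (hTOW : TOW_stmt) (hCEL : CEL_stmt) (hMOD : MOD_stmt)
    (hGUN : GUN_stmt) (hSCA : SCA_stmt) (hSYM : SYM_stmt) (hLOC : LOC_stmt) (hPHA : PHA_stmt) :
    CORE_stmt := by
  obtain ⟨C, hC1, hC⟩ := hKO1
  have hKQ : KQ C := ⟨hC1, hC⟩
  obtain ⟨D, hD1, hD⟩ := hKO3 (1 / 2) (by norm_num) (by norm_num)
  have hKD : KD D := by
    refine ⟨hD1, ?_⟩
    intro G a r hr hdiff hinj x hx
    refine ((hD G a r hr hdiff hinj).2 x ?_).2.2.2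
    rw [show (1 - 1 / 2) * r = r / 2 by ring]
    exact hx
  have hC0 : 0 < C := by linarith
  obtain ⟨X₀, c₀, hX₀, hc₀, hloc⟩ := hLOC (16 * C ^ 2) 100 (32 * C ^ 2 * D) (1 / (8 * C)) (1 / 4)
    (by nlinarith) (by norm_num) (by positivity) (by positivity) (by norm_num)
  obtain ⟨CE, hCE, heri⟩ := hERI
  refine ⟨(16 * C + 2 * C * X₀ + 2) + 96 * C ^ 2 * CE / c₀ ^ 2, ?_, ?_⟩
  · have : 0 ≤ 96 * C ^ 2 * CE / c₀ ^ 2 := by positivity
    nlinarith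
  intro n hn c p q κ hret hκ hS
  have hn2 : 2 ≤ n := by omega
  obtain ⟨-, -, -, -, -, -, -, -, -, -, hnat⟩ := hNAT n c hn2
  obtain ⟨hR0, hR2, hX1, hRX, hA0, hxcp, hxc⟩ := hnat p q hret
  have hlog : 0 ≤ Real.log (X n c p q) := Real.log_nonneg hX1.le
  have hfac : 1 ≤ κ * (1 + Real.log (X n c p q)) := by nlinarith
  have hKpos : 0 ≤ 96 * C ^ 2 * CE / c₀ ^ 2 := by positivity
  by_cases hsmall : X n c p q ≤ 16 * C + 2 * C * X₀ + 2
  · have h1 : X n c p q ≤ (16 * C + 2 * C * X₀ + 2) + 96 * C ^ 2 * CE / c₀ ^ 2 := by linarith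
    have h2 : 0 ≤ (16 * C + 2 * C * X₀ + 2) + 96 * C ^ 2 * CE / c₀ ^ 2 := by positivity
    calc X n c p q ≤ ((16 * C + 2 * C * X₀ + 2) + 96 * C ^ 2 * CE / c₀ ^ 2) * 1 := by linarith
      _ ≤ ((16 * C + 2 * C * X₀ + 2) + 96 * C ^ 2 * CE / c₀ ^ 2) *
          (κ * (1 + Real.log (X n c p q))) := mul_le_mul_of_nonneg_left hfac h2
      _ = _ := by ring
  rw [not_le] at hsmall
  have hCX : 0 < C * X₀ := by positivity
  have hX16 : 16 * C ≤ X n c p q := by linarith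
  have hX2 : 2 ≤ X n c p q := by linarith
  have hX2C : 2 * C * X₀ ≤ X n c p q := by linarith
  have hXX₀ : X₀ ≤ X n c p q := by nlinarith
  have hXpos : 0 < X n c p q := by linarith
  obtain ⟨G, hG⟩ := hTOW n c p q hret
  have hp1 : 1 ≤ p := by have := hret.q1; have := hret.qp; omega
  obtain ⟨j₀, hj₀, hmin⟩ := Finset.exists_min_image (Finset.Icc 1 p) (fun j => ‖A n c j‖)
    ⟨1, Finset.mem_Icc.2 ⟨le_rfl, hp1⟩⟩
  obtain ⟨-, -, hlam⟩ := hCEL C n c p q G hKQ hret hG hX16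
  obtain ⟨a, b, hab⟩ := hMOD C n c p q G j₀ hKQ hret hG hX16 hj₀ hmin
  obtain ⟨u₀, γ, hu₀, hγ, hg⟩ := hGUN C D n c p q G j₀ hKQ hKD hret hG hX16 hj₀
  obtain ⟨θ, hθ, hσ0, hsca⟩ := hSCA C n c p q G j₀ hKQ hret hG hj₀
  have hlam1 : ‖xc n c p q j₀ - 1‖ ≤ 1 / X₀ := by
    refine (hxc j₀).trans (hlam.trans ?_)
    rw [div_le_div_iff₀ hXpos (by linarith)]
    linarith
  have hu₀' : ‖u₀‖ ≤ 1 / X₀ := by
    rw [hu₀]
    exact one_div_le_one_div_of_le (by linarith) hXX₀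
  obtain ⟨ρ, κ', d, hρc, hρ1, hd, hann⟩ := hloc (gg C n c p q j₀ G) (Bh C n c p q j₀) u₀ γ
    (xc n c p q j₀) a b hγ hu₀' hlam1 hg hab
  have hρ0 : 0 < ρ := by linarith
  -- the energy
  obtain ⟨hBm, hBi⟩ := hMSB n c p q
  have hZp : 0 < ‖Z n c p‖ := norm_pos_iff.2 (hret.ne0 p hp1 le_rfl)
  have hAp : 0 < ‖A n c p‖ := norm_pos_iff.2 (hA0 p hp1 (by omega))
  set ε : ℝ := CE * κ * (‖Z n c p‖ / ‖A n c p‖) * (1 + Real.log (X n c p q)) with hε
  have hκ0 : 0 < κ := by linarith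
  have hε0 : 0 ≤ ε := by rw [hε]; positivity
  obtain ⟨-, hDm, hem, hEg⟩ := hENG n c (B n c p q) ε hn2 hret.hc hBm hBi hε0
    (heri n c p q κ hret hX2 hκ hS)
  have hm₀ : p - j₀ < p := by have := Finset.mem_Icc.1 hj₀; omega
  have hsym := hSYM C n c p q G (3 * ε) hKQ hret hG hX16 hDm hem hEg (p - j₀) hm₀
  -- restriction to the annulus
  set Rq : ℝ := R n c q with hRq
  have hρ11 : ρ ≤ 1 := by
    refine hρ1.trans ?_
    rw [div_le_one (by positivity)]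
    linarith
  have hsub : ball (0 : ℂ) (ρ * Rq) \ closedBall (0 : ℂ) (ρ * Rq / 2) ⊆ ball 0 (Rq / (8 * C)) := by
    intro w hw
    refine ball_subset_ball ?_ hw.1
    have h1 : ρ * Rq ≤ 1 / (8 * C) * Rq := mul_le_mul_of_nonneg_right hρ1 hR0.le
    calc ρ * Rq ≤ 1 / (8 * C) * Rq := h1
      _ = Rq / (8 * C) := by ring
  have hlow : ∀ w ∈ ball (0 : ℂ) (ρ * Rq) \ closedBall (0 : ℂ) (ρ * Rq / 2),
      ENNReal.ofReal (‖θ‖ * ((n : ℝ) / 2)) ≤ ENNReal.ofReal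
        (∑ k ∈ Finset.range n, ‖tau (B n c p q) G (p - j₀) (om n ^ k * w)‖ -
          ‖∑ k ∈ Finset.range n, om n ^ (2 * k) * tau (B n c p q) G (p - j₀) (om n ^ k * w)‖) := by
    intro w hw
    apply ENNReal.ofReal_le_ofReal
    refine CORE_point hPHA n hn Rq ρ hR0 hρ11 κ' θ d hd (tau (B n c p q) G (p - j₀))
      (fun u => Bh C n c p q j₀ (gg C n c p q j₀ G u) * deriv (gg C n c p q j₀ G) u ^ 2)
      hsca hann hρ0 w ?_ ?_
    · have h1 := hw.2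
      rw [mem_closedBall_zero_iff, not_le] at h1
      linarith
    · exact mem_ball_zero_iff.1 hw.1
  have hmeas : MeasurableSet (ball (0 : ℂ) (ρ * Rq) \ closedBall (0 : ℂ) (ρ * Rq / 2)) :=
    measurableSet_ball.diff measurableSet_closedBall
  have hchain : ENNReal.ofReal (‖θ‖ * ((n : ℝ) / 2)) * ENNReal.ofReal (2 * (ρ * Rq) ^ 2) ≤
      2 * n * ENNReal.ofReal (3 * ε) := by
    calc ENNReal.ofReal (‖θ‖ * ((n : ℝ) / 2)) * ENNReal.ofReal (2 * (ρ * Rq) ^ 2)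
        ≤ ENNReal.ofReal (‖θ‖ * ((n : ℝ) / 2)) *
          volume (ball (0 : ℂ) (ρ * Rq) \ closedBall (0 : ℂ) (ρ * Rq / 2)) :=
          mul_le_mul_right (CORE_area (ρ * Rq) (by positivity)) _
      _ = ∫⁻ w in ball (0 : ℂ) (ρ * Rq) \ closedBall (0 : ℂ) (ρ * Rq / 2),
          ENNReal.ofReal (‖θ‖ * ((n : ℝ) / 2)) := by
          rw [setLIntegral_const]
      _ ≤ ∫⁻ w in ball (0 : ℂ) (ρ * Rq) \ closedBall (0 : ℂ) (ρ * Rq / 2), ENNReal.ofReal
        (∑ k ∈ Finset.range n, ‖tau (B n c p q) G (p - j₀) (om n ^ k * w)‖ -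
          ‖∑ k ∈ Finset.range n, om n ^ (2 * k) * tau (B n c p q) G (p - j₀) (om n ^ k * w)‖) :=
          setLIntegral_mono' hmeas hlow
      _ ≤ _ := lintegral_mono_set hsub
      _ ≤ _ := hsym
  rw [← ENNReal.ofReal_mul (by positivity), show (2 : ENNReal) * (n : ENNReal) =
    ENNReal.ofReal (2 * (n : ℝ)) by
      rw [ENNReal.ofReal_mul (by norm_num), ENNReal.ofReal_natCast]; norm_num,
    ← ENNReal.ofReal_mul (by positivity), ENNReal.ofReal_le_ofReal_iff (by positivity), hθ] at hchain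
  have hn0 : (0 : ℝ) < n := by exact_mod_cast (by omega : 0 < n)
  have h1 : sg C n c p q * ρ ^ 2 ≤ 6 * ε := by
    have e1 : sg C n c p q / Rq ^ 2 * ((n : ℝ) / 2) * (2 * (ρ * Rq) ^ 2) =
        n * (sg C n c p q * ρ ^ 2) := by
      field_simp
    rw [e1] at hchain
    have e2 : 2 * (n : ℝ) * (3 * ε) = n * (6 * ε) := by ring
    rw [e2] at hchain
    exact le_of_mul_le_mul_left hchain hn0
  have h2 : sg C n c p q = X n c p q / (16 * C ^ 2) * (‖Z n c p‖ / ‖A n c p‖) := by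
    unfold sg
    rw [← hRq, hRX]
    field_simp
  have hq0 : 0 < ‖Z n c p‖ / ‖A n c p‖ := by positivity
  have h3 : X n c p q / (16 * C ^ 2) * ρ ^ 2 ≤ 6 * (CE * κ * (1 + Real.log (X n c p q))) := by
    rw [h2, hε] at h1
    have e1 : X n c p q / (16 * C ^ 2) * (‖Z n c p‖ / ‖A n c p‖) * ρ ^ 2 =
        (‖Z n c p‖ / ‖A n c p‖) * (X n c p q / (16 * C ^ 2) * ρ ^ 2) := by ring
    have e2 : 6 * (CE * κ * (‖Z n c p‖ / ‖A n c p‖) * (1 + Real.log (X n c p q))) =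
        (‖Z n c p‖ / ‖A n c p‖) * (6 * (CE * κ * (1 + Real.log (X n c p q)))) := by ring
    rw [e1, e2] at h1
    exact le_of_mul_le_mul_left h1 hq0
  have h4 : X n c p q / (16 * C ^ 2) * c₀ ^ 2 ≤ 6 * (CE * κ * (1 + Real.log (X n c p q))) := by
    refine le_trans ?_ h3
    apply mul_le_mul_of_nonneg_left _ (by positivity)
    exact pow_le_pow_left₀ hc₀.le hρc 2
  have h5 : X n c p q ≤ 96 * C ^ 2 * CE / c₀ ^ 2 * (κ * (1 + Real.log (X n c p q))) := by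
    rw [div_mul_eq_mul_div, le_div_iff₀ (by positivity)]
    rw [div_mul_eq_mul_div, div_le_iff₀ (by positivity)] at h4
    linarith
  calc X n c p q ≤ 96 * C ^ 2 * CE / c₀ ^ 2 * (κ * (1 + Real.log (X n c p q))) := h5
    _ ≤ ((16 * C + 2 * C * X₀ + 2) + 96 * C ^ 2 * CE / c₀ ^ 2) *
        (κ * (1 + Real.log (X n c p q))) := by
        apply mul_le_mul_of_nonneg_right _ (by linarith)
        have : 0 ≤ 16 * C + 2 * C * X₀ + 2 := by positivity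
        linarith
    _ = _ := by ring

end GR
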